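import Mathlib

/-!
Contraction lemma for the recursion `(n+1) u(n+r) = 2 ∑_{i ≤ n} u i + 2 c n`.
-/

namespace Pool.Agent.X154.RSA

open Finset Filter Topology

/-- Geometric bound for a sequence satisfying an averaged recursion. -/
theorem geom_bound {r : ℕ} (x : ℕ → ℝ) {ρ E : ℝ} (hρ : 0 < ρ) (hE : 0 ≤ E)
    (hx : ∀ n, 0 ≤ x n)
    (hrec : ∀ n, x (n + r) ≤ 2 / ((n : ℝ) + 2) * ∑ j ∈ Ico 1 r, x (n + j) + E * ρ ^ n) :
    ∃ K, 0 ≤ K ∧ ∀ n, x n ≤ K * ρ ^ n := by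
  -- choose N
  set Sg : ℝ := ∑ j ∈ Ico 1 r, ρ ^ j with hSg
  have hSg0 : 0 ≤ Sg := Finset.sum_nonneg (fun j _ => by positivity)
  obtain ⟨N, hN⟩ := exists_nat_gt (4 * Sg / ρ ^ r)
  set K : ℝ := ∑ n ∈ range (N + r), x n / ρ ^ n + 2 * E / ρ ^ r with hK
  have hK1 : 0 ≤ ∑ n ∈ range (N + r), x n / ρ ^ n :=
    Finset.sum_nonneg (fun j _ => div_nonneg (hx j) (by positivity))
  have hK2 : 0 ≤ 2 * E / ρ ^ r := by positivity
  have hK0 : 0 ≤ K := by rw [hK]; linarith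
  refine ⟨K, hK0, ?_⟩
  intro n
  induction n using Nat.strong_induction_on with
  | _ n ih =>
    by_cases hn : n < N + r
    · have h1 : x n / ρ ^ n ≤ ∑ n ∈ range (N + r), x n / ρ ^ n :=
        Finset.single_le_sum (f := fun n => x n / ρ ^ n)
          (fun j _ => div_nonneg (hx j) (by positivity)) (Finset.mem_range.2 hn)
      have h2 : x n / ρ ^ n ≤ K := by rw [hK]; linarith
      rwa [div_le_iff₀ (by positivity)] at h2
    · push Not at hn
      obtain ⟨k, rfl⟩ : ∃ k, n = k + r := ⟨n - r, by omega⟩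
      have hkN : N ≤ k := by omega
      have h1 : ∑ j ∈ Ico 1 r, x (k + j) ≤ K * ρ ^ k * Sg := by
        rw [hSg, Finset.mul_sum]
        apply Finset.sum_le_sum
        intro j hj
        have hj' := Finset.mem_Ico.1 hj
        have := ih (k + j) (by omega)
        rw [pow_add] at this
        linarith
      have hkpos : (0 : ℝ) < (k : ℝ) + 2 := by positivity
      have h2 : 2 / ((k : ℝ) + 2) * Sg ≤ ρ ^ r / 2 := by
        rw [div_mul_eq_mul_div, div_le_iff₀ hkpos]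
        rw [div_lt_iff₀ (by positivity)] at hN
        have : (N : ℝ) ≤ k := by exact_mod_cast hkN
        have h3 : (N : ℝ) * ρ ^ r ≤ k * ρ ^ r := mul_le_mul_of_nonneg_right this (by positivity)
        have h4 : 0 < ρ ^ r := by positivity
        nlinarith
      have h3 : 2 / ((k : ℝ) + 2) * ∑ j ∈ Ico 1 r, x (k + j) ≤ K * ρ ^ k * (ρ ^ r / 2) := by
        calc 2 / ((k : ℝ) + 2) * ∑ j ∈ Ico 1 r, x (k + j)
            ≤ 2 / ((k : ℝ) + 2) * (K * ρ ^ k * Sg) :=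
              mul_le_mul_of_nonneg_left h1 (by positivity)
          _ = K * ρ ^ k * (2 / ((k : ℝ) + 2) * Sg) := by ring
          _ ≤ K * ρ ^ k * (ρ ^ r / 2) := mul_le_mul_of_nonneg_left h2 (by positivity)
      have h5 : E * ρ ^ k ≤ K * ρ ^ k * (ρ ^ r / 2) := by
        have h6 : E ≤ K * (ρ ^ r / 2) := by
          have h7 : 2 * E / ρ ^ r ≤ K := by rw [hK]; linarith
          rw [div_le_iff₀ (by positivity)] at h7
          linarith
        have := mul_le_mul_of_nonneg_right h6 (show (0 : ℝ) ≤ ρ ^ k by positivity)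
        calc E * ρ ^ k ≤ K * (ρ ^ r / 2) * ρ ^ k := this
          _ = K * ρ ^ k * (ρ ^ r / 2) := by ring
      calc x (k + r) ≤ _ := hrec k
        _ ≤ K * ρ ^ k * (ρ ^ r / 2) + K * ρ ^ k * (ρ ^ r / 2) := add_le_add h3 h5
        _ = K * ρ ^ (k + r) := by rw [pow_add]; ring

/-- The recursion satisfied by the sequences of interest. -/
def Rec (r : ℕ) (u c : ℕ → ℝ) : Prop :=
  ∀ n : ℕ, ((n : ℝ) + 1) * u (n + r) = 2 * ∑ i ∈ range (n + 1), u i + 2 * c n

theorem contraction {r : ℕ} (hr : 1 ≤ r) (u c : ℕ → ℝ) (hu : Rec r u c) {ρ C : ℝ}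
    (hρ : 0 < ρ) (hρ1 : ρ < 1) (hC : 0 ≤ C) (hc : ∀ n, |c n| ≤ C * ρ ^ n) :
    ∃ L K : ℝ, 0 ≤ K ∧ ∀ n : ℕ, |u n - L * ((n : ℝ) + r)| ≤ K * ((n : ℝ) + r) * ρ ^ n := by
  set g : ℕ → ℝ := fun n => u n / ((n : ℝ) + r) with hg
  have hrpos : (0 : ℝ) < r := by exact_mod_cast hr
  have hpos : ∀ n : ℕ, (0 : ℝ) < (n : ℝ) + r := fun n => by positivity
  have hug : ∀ n, u n = ((n : ℝ) + r) * g n := fun n => by
    simp only [hg]; field_simp
  -- difference recursion
  have hdiff : ∀ n : ℕ, ((n : ℝ) + 2) * (n + 1 + 2 * r) * (g (n + 1 + r) - g (n + r))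
      = -(2 * ((n : ℝ) + 1 + r)) * (g (n + r) - g (n + 1)) + 2 * (c (n + 1) - c n) := by
    intro n
    have h1 := hu (n + 1)
    have h2 := hu n
    rw [Finset.sum_range_succ] at h1
    have e1 := hug (n + 1 + r)
    have e2 := hug (n + r)
    have e3 := hug (n + 1)
    push_cast at h1 e1 e2 e3
    rw [e1, e3] at h1
    rw [e2] at h2
    nlinarith
  set x : ℕ → ℝ := fun n => |g (n + 1) - g n| with hx
  have htel : ∀ n k : ℕ, |g (n + 1 + k) - g (n + 1)| ≤ ∑ j ∈ range k, x (n + 1 + j) := by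
    intro n k
    induction k with
    | zero => simp
    | succ k ih =>
      rw [Finset.sum_range_succ]
      calc |g (n + 1 + (k + 1)) - g (n + 1)|
          = |(g (n + 1 + k) - g (n + 1)) + (g (n + 1 + k + 1) - g (n + 1 + k))| := by
            congr 1; rw [← add_assoc]; ring
        _ ≤ |g (n + 1 + k) - g (n + 1)| + |g (n + 1 + k + 1) - g (n + 1 + k)| := abs_add_le _ _
        _ ≤ _ := by simp only [hx] at ih ⊢; linarith
  have hrec : ∀ n, x (n + r) ≤ 2 / ((n : ℝ) + 2) * ∑ j ∈ Ico 1 r, x (n + j) + (4 * C) * ρ ^ n := by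
    intro n
    have hA : (0 : ℝ) < ((n : ℝ) + 2) * (n + 1 + 2 * r) := by positivity
    have h1 := hdiff n
    have h2 : g (n + r + 1) - g (n + r)
        = (-(2 * ((n : ℝ) + 1 + r)) * (g (n + r) - g (n + 1)) + 2 * (c (n + 1) - c n))
          / (((n : ℝ) + 2) * (n + 1 + 2 * r)) := by
      rw [eq_div_iff hA.ne', ← h1, show n + r + 1 = n + 1 + r by ring]; ring
    have h3 : |g (n + r) - g (n + 1)| ≤ ∑ j ∈ Ico 1 r, x (n + j) := by
      obtain ⟨k, rfl⟩ : ∃ k, r = k + 1 := ⟨r - 1, by omega⟩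
      have := htel n k
      rw [show n + 1 + k = n + (k + 1) by ring] at this
      refine this.trans (le_of_eq ?_)
      rw [Finset.sum_Ico_eq_sum_range]
      simp only [Nat.add_sub_cancel]
      apply Finset.sum_congr rfl
      intro j _
      rw [add_assoc]
    have hcc : |c (n + 1) - c n| ≤ 2 * C * ρ ^ n := by
      calc |c (n + 1) - c n| ≤ |c (n + 1)| + |c n| := abs_sub _ _
        _ ≤ C * ρ ^ (n + 1) + C * ρ ^ n := add_le_add (hc _) (hc _)
        _ ≤ C * ρ ^ n + C * ρ ^ n := by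
          have : ρ ^ (n + 1) ≤ ρ ^ n := pow_le_pow_of_le_one hρ.le hρ1.le (by omega)
          nlinarith [mul_le_mul_of_nonneg_left this hC]
        _ = _ := by ring
    simp only [hx]
    rw [h2, abs_div, abs_of_pos hA, div_le_iff₀ hA]
    have h4 : |-(2 * ((n : ℝ) + 1 + r)) * (g (n + r) - g (n + 1)) + 2 * (c (n + 1) - c n)|
        ≤ 2 * ((n : ℝ) + 1 + r) * |g (n + r) - g (n + 1)| + 2 * |c (n + 1) - c n| := by
      refine (abs_add_le _ _).trans ?_
      rw [abs_mul, abs_neg, abs_mul 2 (c (n + 1) - c n)]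
      rw [abs_of_pos (show (0 : ℝ) < 2 * ((n : ℝ) + 1 + r) by positivity), abs_two]
    refine h4.trans ?_
    have hS : 0 ≤ ∑ j ∈ Ico 1 r, x (n + j) := Finset.sum_nonneg (fun j _ => abs_nonneg _)
    have h5 : 2 * ((n : ℝ) + 1 + r) * |g (n + r) - g (n + 1)|
        ≤ 2 / ((n : ℝ) + 2) * (∑ j ∈ Ico 1 r, x (n + j)) * (((n : ℝ) + 2) * (n + 1 + 2 * r)) := by
      have e : 2 / ((n : ℝ) + 2) * (∑ j ∈ Ico 1 r, x (n + j)) * (((n : ℝ) + 2) * (n + 1 + 2 * r))
          = 2 * ((n : ℝ) + 1 + 2 * r) * ∑ j ∈ Ico 1 r, x (n + j) := by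
        field_simp
      rw [e]
      have h6 : 2 * ((n : ℝ) + 1 + r) ≤ 2 * ((n : ℝ) + 1 + 2 * r) := by linarith
      exact mul_le_mul h6 h3 (abs_nonneg _) (by positivity)
    have h7 : 2 * |c (n + 1) - c n| ≤ 4 * C * ρ ^ n * (((n : ℝ) + 2) * (n + 1 + 2 * r)) := by
      have h8 : (1 : ℝ) ≤ ((n : ℝ) + 2) * (n + 1 + 2 * r) := by
        have : (0 : ℝ) ≤ n := by positivity
        nlinarith
      have h9 : 0 ≤ 4 * C * ρ ^ n := by positivity
      calc 2 * |c (n + 1) - c n| ≤ 4 * C * ρ ^ n := by linarith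
        _ = 4 * C * ρ ^ n * 1 := by ring
        _ ≤ _ := mul_le_mul_of_nonneg_left h8 h9
    simp only [hx] at h5
    rw [add_mul]
    exact add_le_add h5 h7
  obtain ⟨K, hK0, hK⟩ := geom_bound x hρ (by positivity : (0:ℝ) ≤ 4 * C) (fun n => abs_nonneg _) hrec
  have hdist : ∀ n, dist (g n) (g (n + 1)) ≤ K * ρ ^ n := by
    intro n
    rw [Real.dist_eq, abs_sub_comm]
    exact hK n
  have hcs := cauchySeq_of_le_geometric ρ K hρ1 hdist
  obtain ⟨L, hL⟩ := cauchySeq_tendsto_of_complete hcs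
  refine ⟨L, K / (1 - ρ), div_nonneg hK0 (by linarith), ?_⟩
  intro n
  have h := dist_le_of_le_geometric_of_tendsto ρ K hρ1 hdist hL n
  rw [Real.dist_eq] at h
  have e : u n - L * ((n : ℝ) + r) = ((n : ℝ) + r) * (g n - L) := by rw [hug n]; ring
  rw [e, abs_mul, abs_of_pos (hpos n)]
  calc ((n : ℝ) + r) * |g n - L| ≤ ((n : ℝ) + r) * (K * ρ ^ n / (1 - ρ)) :=
        mul_le_mul_of_nonneg_left h (hpos n).le
    _ = _ := by ring

end Pool.Agent.X154.RSA
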