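import Mathlib
import Pool.Agent.X154.RSA.A

/-!
Power series of the solutions of the recursion.
-/

namespace Pool.Agent.X154.RSA

open Finset Filter Topology

/-- `S r t = ∑_{k=1}^{r-1} t^k / k`. -/
noncomputable def S (r : ℕ) (t : ℝ) : ℝ := ∑ k ∈ Ico 1 r, t ^ k / (k : ℝ)

theorem hasDerivAt_S (r : ℕ) (t : ℝ) :
    HasDerivAt (S r) (∑ k ∈ Ico 1 r, t ^ (k - 1)) t := by
  have h : ∀ k ∈ Ico 1 r, HasDerivAt (fun t : ℝ => t ^ k / (k : ℝ)) (t ^ (k - 1)) t := by
    intro k hk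
    have hk1 : 1 ≤ k := (Finset.mem_Ico.1 hk).1
    have hk0 : (k : ℝ) ≠ 0 := by
      have : (0 : ℝ) < k := by exact_mod_cast hk1
      exact this.ne'
    have h1 := (hasDerivAt_pow k t).div_const (k : ℝ)
    refine h1.congr_deriv ?_
    field_simp
  have h2 := HasDerivAt.fun_sum h
  exact h2

theorem one_sub_mul_geom {r : ℕ} (hr : 1 ≤ r) (t : ℝ) :
    (1 - t) * ∑ k ∈ Ico 1 r, t ^ (k - 1) = 1 - t ^ (r - 1) := by
  obtain ⟨k, rfl⟩ : ∃ k, r = k + 1 := ⟨r - 1, by omega⟩
  rw [Finset.sum_Ico_eq_sum_range]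
  simp only [Nat.add_sub_cancel]
  have : ∑ j ∈ range k, t ^ (1 + j - 1) = ∑ j ∈ range k, t ^ j := by
    apply Finset.sum_congr rfl
    intro j _
    congr 1
    omega
  rw [this, mul_comm]
  have h := geom_sum_mul t k
  linarith

theorem continuous_S (r : ℕ) : Continuous (S r) := by
  unfold S
  fun_prop

theorem summable_aux (a : ℕ → ℝ) {K : ℝ} {k : ℕ} (ha : ∀ n, |a n| ≤ K * ((n : ℝ) + 1) ^ k)
    {t : ℝ} (ht : |t| < 1) : Summable (fun n => |a n * t ^ n|) := by
  have hK : 0 ≤ K := by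
    have := ha 0
    simp at this
    exact (abs_nonneg _).trans this
  have h1 : Summable (fun n : ℕ => ((n : ℝ) ^ k * |t| ^ n)) :=
    summable_pow_mul_geometric_of_norm_lt_one k (by simpa using ht)
  have h2 : Summable (fun n : ℕ => |t| ^ n) :=
    summable_geometric_of_lt_one (abs_nonneg _) ht
  have h3 : Summable (fun n : ℕ => K * (2 ^ k * ((n : ℝ) ^ k * |t| ^ n) + |t| ^ n)) :=
    ((h1.mul_left _).add h2).mul_left K
  refine Summable.of_nonneg_of_le (fun n => abs_nonneg _) (fun n => ?_) h3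
  rw [abs_mul, abs_pow]
  have h4 : ((n : ℝ) + 1) ^ k ≤ 2 ^ k * (n : ℝ) ^ k + 1 := by
    rcases Nat.eq_zero_or_pos n with h | h
    · subst h
      simp only [Nat.cast_zero, zero_add, one_pow]
      have : (0 : ℝ) ≤ 2 ^ k * 0 ^ k := by positivity
      linarith
    · have h5 : (1 : ℝ) ≤ n := by exact_mod_cast h
      have h6 : ((n : ℝ) + 1) ^ k ≤ (2 * n) ^ k :=
        pow_le_pow_left₀ (by positivity) (by linarith) k
      rw [mul_pow] at h6
      linarith
  have h5 : (0 : ℝ) ≤ |t| ^ n := by positivity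
  calc |a n| * |t| ^ n ≤ K * ((n : ℝ) + 1) ^ k * |t| ^ n := mul_le_mul_of_nonneg_right (ha n) h5
    _ ≤ K * (2 ^ k * (n : ℝ) ^ k + 1) * |t| ^ n := by
      apply mul_le_mul_of_nonneg_right _ h5
      exact mul_le_mul_of_nonneg_left h4 hK
    _ = _ := by ring

theorem hasDerivAt_series (a : ℕ → ℝ) {K : ℝ} {k : ℕ}
    (ha : ∀ n, |a n| ≤ K * ((n : ℝ) + 1) ^ k) {t : ℝ} (ht : |t| < 1) :
    HasDerivAt (fun z : ℝ => ∑' n : ℕ, a n / ((n : ℝ) + 1) * z ^ (n + 1)) (∑' n, a n * t ^ n) t := by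
  set ρ : ℝ := (|t| + 1) / 2 with hρ
  have hρ0 : 0 < ρ := by have := abs_nonneg t; rw [hρ]; linarith
  have hρ1 : ρ < 1 := by rw [hρ]; linarith
  have htρ : |t| < ρ := by rw [hρ]; linarith
  have hs := summable_aux a ha (t := ρ) (by rwa [abs_of_pos hρ0])
  refine hasDerivAt_tsum_of_isPreconnected (u := fun n => |a n * ρ ^ n|)
    (g := fun n z => a n / ((n : ℝ) + 1) * z ^ (n + 1)) (g' := fun n y => a n * y ^ n)
    (t := Metric.ball (0 : ℝ) ρ) (y₀ := 0) hs Metric.isOpen_ball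
    (convex_ball _ _).isPreconnected ?_ ?_ (Metric.mem_ball_self hρ0) ?_ ?_
  · intro n y _
    have h1 := (hasDerivAt_pow (n + 1) y).const_mul (a n / ((n : ℝ) + 1))
    refine h1.congr_deriv ?_
    have : (n : ℝ) + 1 ≠ 0 := by positivity
    push_cast
    field_simp
  · intro n y hy
    have hy' : |y| < ρ := by simpa [Real.dist_eq] using hy
    rw [Real.norm_eq_abs, abs_mul, abs_mul, abs_pow, abs_pow, abs_of_pos hρ0]
    exact mul_le_mul_of_nonneg_left (pow_le_pow_left₀ (abs_nonneg _) hy'.le n) (abs_nonneg _)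
  · have : (fun n : ℕ => a n / ((n : ℝ) + 1) * (0 : ℝ) ^ (n + 1)) = fun _ => 0 := by
      funext n; simp
    rw [this]
    exact summable_zero
  · simpa [Real.dist_eq] using htρ

/-- The integrand. -/
noncomputable def F (r : ℕ) (u c : ℕ → ℝ) (s : ℝ) : ℝ :=
  2 * Real.exp (2 * S r s) * ((1 - s) * ∑ n ∈ range r, u n * s ^ n
    + (1 - s) ^ 2 * ∑' n, c n * s ^ n)

theorem continuousOn_series {c : ℕ → ℝ} (hc : Summable fun n => |c n|) :
    ContinuousOn (fun s : ℝ => ∑' n, c n * s ^ n) (Set.Icc 0 1) := by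
  refine continuousOn_tsum (u := fun n => |c n|) (fun _ => by fun_prop) hc ?_
  intro n x hx
  rw [Real.norm_eq_abs, abs_mul, abs_pow]
  have h1 : |x| ≤ 1 := by rw [abs_of_nonneg hx.1]; exact hx.2
  calc |c n| * |x| ^ n ≤ |c n| * 1 :=
        mul_le_mul_of_nonneg_left (pow_le_one₀ (abs_nonneg _) h1) (abs_nonneg _)
    _ = _ := mul_one _

theorem summable_of_geom {c : ℕ → ℝ} {C ρ : ℝ} (hρ : 0 < ρ) (hρ1 : ρ < 1)
    (hc : ∀ n, |c n| ≤ C * ρ ^ n) : Summable fun n => |c n| :=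
  Summable.of_nonneg_of_le (fun n => abs_nonneg _) hc
    ((summable_geometric_of_lt_one hρ.le hρ1).mul_left C)

theorem continuousOn_F (r : ℕ) (u : ℕ → ℝ) {c : ℕ → ℝ} (hc : Summable fun n => |c n|) :
    ContinuousOn (F r u c) (Set.Icc 0 1) := by
  unfold F
  have h1 := continuousOn_series hc
  have h2 : ContinuousOn (fun s => 2 * Real.exp (2 * S r s)) (Set.Icc 0 1) := by
    have := continuous_S r
    fun_prop
  refine h2.mul (ContinuousOn.add ?_ (ContinuousOn.mul (by fun_prop) h1))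
  fun_prop

theorem series_identity {r : ℕ} (hr : 1 ≤ r) (u c : ℕ → ℝ) (hu : Rec r u c) {K : ℝ}
    (hK : ∀ n : ℕ, |u n| ≤ K * ((n : ℝ) + 1)) (hc : Summable fun n => |c n|)
    {t : ℝ} (ht0 : 0 ≤ t) (ht1 : t < 1) :
    (∑' n, u n * t ^ n - ∑ n ∈ range r, u n * t ^ n) * ((1 - t) ^ 2 * Real.exp (2 * S r t))
      = t ^ (r - 1) * ∫ s in (0 : ℝ)..t, F r u c s := by
  have hrpos : (0 : ℝ) < r := by exact_mod_cast hr
  have hK0 : 0 ≤ K := by
    have := hK 0
    simp at this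
    exact (abs_nonneg _).trans this
  set a : ℕ → ℝ := fun n => ((n : ℝ) + 1) * u (n + r) with ha
  have haK : ∀ n, |a n| ≤ (K * ((r : ℝ) + 1)) * ((n : ℝ) + 1) ^ 2 := by
    intro n
    simp only [ha]
    rw [abs_mul, abs_of_pos (by positivity : (0:ℝ) < (n : ℝ) + 1)]
    have h1 := hK (n + r)
    push_cast at h1
    have h2 : (n : ℝ) + r + 1 ≤ (r + 1) * (n + 1) := by
      have : (0 : ℝ) ≤ n := by positivity
      nlinarith
    calc ((n : ℝ) + 1) * |u (n + r)| ≤ ((n : ℝ) + 1) * (K * (n + r + 1)) :=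
          mul_le_mul_of_nonneg_left h1 (by positivity)
      _ ≤ ((n : ℝ) + 1) * (K * ((r + 1) * (n + 1))) := by
          apply mul_le_mul_of_nonneg_left _ (by positivity)
          exact mul_le_mul_of_nonneg_left h2 hK0
      _ = _ := by ring
  set H : ℝ → ℝ := fun z => ∑' n : ℕ, a n / ((n : ℝ) + 1) * z ^ (n + 1) with hH
  have hcM : ∀ n, |c n| ≤ (∑' n, |c n|) * ((n : ℝ) + 1) ^ 0 := by
    intro n
    rw [pow_zero, mul_one]
    exact hc.le_tsum n (fun j _ => abs_nonneg _)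
  have hsumu : ∀ z : ℝ, |z| < 1 → Summable (fun n => |u n * z ^ n|) := fun z hz =>
    summable_aux u (k := 1) (K := K) (by simpa using hK) hz
  have hsumc : ∀ z : ℝ, |z| < 1 → Summable (fun n => |c n * z ^ n|) := fun z hz =>
    summable_aux c (k := 0) hcM hz
  have hsuma : ∀ z : ℝ, |z| < 1 → Summable (fun n => |a n * z ^ n|) := fun z hz =>
    summable_aux a (k := 2) haK hz
  -- U = U0 + t^(r-1) H
  have hUH : ∀ z : ℝ, |z| < 1 →
      ∑' n, u n * z ^ n = ∑ n ∈ range r, u n * z ^ n + z ^ (r - 1) * H z := by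
    intro z hz
    have h1 := (Summable.of_abs (hsumu z hz)).sum_add_tsum_nat_add r
    rw [← h1]
    congr 1
    simp only [hH]
    rw [← tsum_mul_left]
    apply tsum_congr
    intro n
    have : (n : ℝ) + 1 ≠ 0 := by positivity
    simp only [ha]
    rw [show n + r = (r - 1) + (n + 1) by omega, pow_add]
    rw [show (r - 1) + (n + 1) = n + r by omega]
    field_simp
  -- derivative series
  have hA : ∀ z : ℝ, |z| < 1 →
      (1 - z) * ∑' n, a n * z ^ n = 2 * ∑' n, u n * z ^ n + 2 * (1 - z) * ∑' n, c n * z ^ n := by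
    intro z hz
    have hz1 : 1 - z ≠ 0 := by
      have := (abs_lt.1 hz).2
      linarith
    have h1 : (∑' n, u n * z ^ n) * ∑' n, z ^ n
        = ∑' n, ∑ k ∈ range (n + 1), u k * z ^ k * z ^ (n - k) := by
      apply tsum_mul_tsum_eq_tsum_sum_range_of_summable_norm
      · simpa [Real.norm_eq_abs] using hsumu z hz
      · simpa [Real.norm_eq_abs, abs_pow] using summable_geometric_of_lt_one (abs_nonneg z) hz
    have h2 : ∀ n, ∑ k ∈ range (n + 1), u k * z ^ k * z ^ (n - k)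
        = (∑ k ∈ range (n + 1), u k) * z ^ n := by
      intro n
      rw [Finset.sum_mul]
      apply Finset.sum_congr rfl
      intro k hk
      rw [mul_assoc, ← pow_add]
      congr 2
      have := Finset.mem_range.1 hk
      omega
    rw [tsum_congr h2, tsum_geometric_of_norm_lt_one (by simpa using hz)] at h1
    have hsu : Summable (fun n => (∑ k ∈ range (n + 1), u k) * z ^ n) := by
      have e : (fun n => (∑ k ∈ range (n + 1), u k) * z ^ n)
          = fun n => (1 / 2) * (a n * z ^ n) - c n * z ^ n := by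
        funext n
        have := hu n
        simp only [ha]
        rw [this]; ring
      rw [e]
      exact ((Summable.of_abs (hsuma z hz)).mul_left _).sub (Summable.of_abs (hsumc z hz))
    have h3 : ∑' n, a n * z ^ n
        = 2 * ∑' n, (∑ k ∈ range (n + 1), u k) * z ^ n + 2 * ∑' n, c n * z ^ n := by
      rw [← tsum_mul_left, ← tsum_mul_left]
      rw [← (hsu.mul_left 2).tsum_add ((Summable.of_abs (hsumc z hz)).mul_left 2)]
      apply tsum_congr
      intro n
      have := hu n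
      simp only [ha]
      rw [this]; ring
    rw [h3, ← h1]
    field_simp
  -- derivative of P
  have hP : ∀ z : ℝ, |z| < 1 →
      HasDerivAt (fun z => H z * ((1 - z) ^ 2 * Real.exp (2 * S r z))) (F r u c z) z := by
    intro z hz
    have h1 : HasDerivAt H (∑' n, a n * z ^ n) z := hasDerivAt_series a (k := 2) haK hz
    have h2 : HasDerivAt (fun z : ℝ => (1 - z) ^ 2) (2 * (1 - z) * (-1)) z := by
      have := ((hasDerivAt_id z).const_sub 1).pow 2
      refine this.congr_deriv ?_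
      simp
    have h3 : HasDerivAt (fun z : ℝ => Real.exp (2 * S r z))
        (Real.exp (2 * S r z) * (2 * ∑ k ∈ Ico 1 r, z ^ (k - 1))) z :=
      ((hasDerivAt_S r z).const_mul 2).exp
    have h4 := h1.mul (h2.mul h3)
    refine h4.congr_deriv ?_
    have h5 := one_sub_mul_geom hr z
    have h6 := hA z hz
    rw [hUH z hz] at h6
    simp only [Pi.mul_apply]
    unfold F
    set G := ∑ k ∈ Ico 1 r, z ^ (k - 1) with hG
    set AA := ∑' n, a n * z ^ n with hAA
    set U0 := ∑ n ∈ range r, u n * z ^ n with hU0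
    set cc := ∑' n, c n * z ^ n with hcc
    set E := Real.exp (2 * S r z) with hE
    set T := z ^ (r - 1) with hT
    have h7 : AA * ((1 - z) ^ 2 * E) = E * (1 - z) * ((1 - z) * AA) := by ring
    have h8 : H z * (2 * (1 - z) * -1 * E + (1 - z) ^ 2 * (E * (2 * G)))
        = H z * E * (1 - z) * (-2 + 2 * ((1 - z) * G)) := by ring
    rw [h7, h8, h6, h5]
    ring
  have hFTC : ∫ s in (0 : ℝ)..t, F r u c s
      = H t * ((1 - t) ^ 2 * Real.exp (2 * S r t)) - H 0 * ((1 - 0) ^ 2 * Real.exp (2 * S r 0)) := by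
    refine intervalIntegral.integral_eq_sub_of_hasDerivAt
      (f := fun z => H z * ((1 - z) ^ 2 * Real.exp (2 * S r z))) ?_ ?_
    · intro x hx
      rw [Set.uIcc_of_le ht0] at hx
      exact hP x (by rw [abs_of_nonneg hx.1]; exact hx.2.trans_lt ht1)
    · apply ContinuousOn.intervalIntegrable
      rw [Set.uIcc_of_le ht0]
      exact (continuousOn_F r u hc).mono (Set.Icc_subset_Icc le_rfl ht1.le)
  have hH0 : H 0 = 0 := by simp [hH]
  rw [hFTC, hH0, hUH t (by rwa [abs_of_nonneg ht0])]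
  ring

theorem tsum_linear {r : ℕ} (L : ℝ) {t : ℝ} (ht0 : 0 ≤ t) (ht1 : t < 1) :
    HasSum (fun n : ℕ => L * ((n : ℝ) + r) * t ^ n) (L * (t / (1 - t) ^ 2 + r / (1 - t))) := by
  have hn : ‖t‖ < 1 := by rw [Real.norm_eq_abs, abs_of_nonneg ht0]; exact ht1
  have h1 := hasSum_coe_mul_geometric_of_norm_lt_one hn
  have h2 := (hasSum_geometric_of_lt_one ht0 ht1).mul_left (r : ℝ)
  have h3 := (h1.add h2).mul_left L
  have e : (fun n : ℕ => L * ((n : ℝ) + r) * t ^ n)
      = fun i : ℕ => L * ((i : ℝ) * t ^ i + (r : ℝ) * t ^ i) := by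
    funext n
    ring
  have e2 : L * (t / (1 - t) ^ 2 + r / (1 - t)) = L * (t / (1 - t) ^ 2 + (r : ℝ) * (1 - t)⁻¹) := by
    rw [div_eq_mul_inv (r : ℝ)]
  rw [e, e2]
  exact h3

theorem limit_identity {r : ℕ} (hr : 1 ≤ r) (u c : ℕ → ℝ) (hu : Rec r u c) {L : ℝ}
    (hL : Summable fun n : ℕ => |u n - L * ((n : ℝ) + r)|) (hc : Summable fun n => |c n|) :
    L * Real.exp (2 * S r 1) = ∫ s in (0 : ℝ)..1, F r u c s := by
  have hrpos : (0 : ℝ) < r := by exact_mod_cast hr
  have hr1 : (1 : ℝ) ≤ r := by exact_mod_cast hr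
  set V := ∑' n : ℕ, |u n - L * ((n : ℝ) + r)| with hV
  have hV0 : 0 ≤ V := tsum_nonneg (fun n => abs_nonneg _)
  have hK : ∀ n : ℕ, |u n| ≤ (V + |L| * r) * ((n : ℝ) + 1) := by
    intro n
    have h1 : |u n - L * ((n : ℝ) + r)| ≤ V := hL.le_tsum n (fun j _ => abs_nonneg _)
    have h2 : |u n| ≤ |u n - L * ((n : ℝ) + r)| + |L * ((n : ℝ) + r)| := by
      have := abs_add_le (u n - L * ((n : ℝ) + r)) (L * ((n : ℝ) + r))
      simpa using this
    have hn0 : (0 : ℝ) ≤ n := by positivity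
    rw [abs_mul, abs_of_pos (by positivity : (0 : ℝ) < (n : ℝ) + r)] at h2
    have h3 : (n : ℝ) + r ≤ r * (n + 1) := by nlinarith
    have h4 : |L| * ((n : ℝ) + r) ≤ |L| * (r * (n + 1)) :=
      mul_le_mul_of_nonneg_left h3 (abs_nonneg _)
    nlinarith
  have hid := fun {t : ℝ} (h0 : 0 ≤ t) (h1 : t < 1) => series_identity hr u c hu hK hc h0 h1
  -- limit of both sides as t → 1-
  have hlim2 : Tendsto (fun t : ℝ => t ^ (r - 1) * ∫ s in (0 : ℝ)..t, F r u c s) (𝓝[<] 1)
      (𝓝 (1 ^ (r - 1) * ∫ s in (0 : ℝ)..1, F r u c s)) := by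
    have hcont : ContinuousOn (fun t : ℝ => ∫ s in (0 : ℝ)..t, F r u c s) (Set.uIcc 0 1) := by
      apply intervalIntegral.continuousOn_primitive_interval
      rw [Set.uIcc_of_le zero_le_one]
      exact (continuousOn_F r u hc).integrableOn_Icc
    have h1 := hcont 1 (by simp)
    rw [Set.uIcc_of_le zero_le_one] at h1
    have h2 : Tendsto (fun t : ℝ => ∫ s in (0 : ℝ)..t, F r u c s) (𝓝[<] 1)
        (𝓝 (∫ s in (0 : ℝ)..1, F r u c s)) := by
      have h3 : 𝓝[<] (1 : ℝ) ≤ 𝓝[Set.Icc 0 1] 1 := by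
        rw [← nhdsWithin_Ico_eq_nhdsLT (zero_lt_one' ℝ)]
        exact nhdsWithin_mono _ Set.Ico_subset_Icc_self
      exact h1.tendsto.mono_left h3
    refine Tendsto.mul ?_ h2
    exact ((continuous_pow (r - 1)).tendsto 1).mono_left nhdsWithin_le_nhds
  have hlim1 : Tendsto (fun t : ℝ => (∑' n, u n * t ^ n - ∑ n ∈ range r, u n * t ^ n)
      * ((1 - t) ^ 2 * Real.exp (2 * S r t))) (𝓝[<] 1) (𝓝 (L * Real.exp (2 * S r 1))) := by
    have hform : ∀ᶠ t in 𝓝[<] (1 : ℝ),
        (L * (t + r * (1 - t)) + (1 - t) ^ 2 * (∑' n, (u n - L * ((n : ℝ) + r)) * t ^ n)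
          - (1 - t) ^ 2 * ∑ n ∈ range r, u n * t ^ n) * Real.exp (2 * S r t)
        = (∑' n, u n * t ^ n - ∑ n ∈ range r, u n * t ^ n)
      * ((1 - t) ^ 2 * Real.exp (2 * S r t)) := by
      have hmem : Set.Ico (0 : ℝ) 1 ∈ 𝓝[<] (1 : ℝ) := Ico_mem_nhdsLT zero_lt_one
      filter_upwards [hmem] with t ht
      have ht1 : 1 - t ≠ 0 := by have := ht.2; linarith
      have h1 := tsum_linear (r := r) L ht.1 ht.2
      have h2 : Summable (fun n : ℕ => (u n - L * ((n : ℝ) + r)) * t ^ n) := by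
        refine Summable.of_norm_bounded hL (fun n => ?_)
        rw [Real.norm_eq_abs, abs_mul, abs_pow, abs_of_nonneg ht.1]
        calc |u n - L * ((n : ℝ) + r)| * t ^ n ≤ |u n - L * ((n : ℝ) + r)| * 1 :=
              mul_le_mul_of_nonneg_left (pow_le_one₀ ht.1 ht.2.le) (abs_nonneg _)
          _ = _ := mul_one _
      have h3 : ∑' n, u n * t ^ n = (∑' n : ℕ, (u n - L * ((n : ℝ) + r)) * t ^ n)
          + L * (t / (1 - t) ^ 2 + r / (1 - t)) := by
        rw [← h1.tsum_eq, ← h2.tsum_add h1.summable]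
        apply tsum_congr
        intro n
        ring
      rw [h3]
      field_simp
      ring
    refine Tendsto.congr' hform ?_
    have hV1 : Tendsto (fun t : ℝ => (1 - t) ^ 2 * (∑' n, (u n - L * ((n : ℝ) + r)) * t ^ n))
        (𝓝[<] 1) (𝓝 ((1 - 1) ^ 2 * (∑' n, (u n - L * ((n : ℝ) + r)) * 1 ^ n))) := by
      have hc1 := continuousOn_series hL
      have h1 := hc1 1 (by simp)
      have h3 : 𝓝[<] (1 : ℝ) ≤ 𝓝[Set.Icc 0 1] 1 := by
        rw [← nhdsWithin_Ico_eq_nhdsLT (zero_lt_one' ℝ)]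
        exact nhdsWithin_mono _ Set.Ico_subset_Icc_self
      refine Tendsto.mul ?_ (h1.tendsto.mono_left h3)
      have : Continuous (fun t : ℝ => (1 - t) ^ 2) := by fun_prop
      exact (this.tendsto 1).mono_left nhdsWithin_le_nhds
    have hS := continuous_S r
    have hc2 : Continuous (fun t : ℝ => L * (t + r * (1 - t))) := by fun_prop
    have hc3 : Continuous (fun t : ℝ => (1 - t) ^ 2 * ∑ n ∈ range r, u n * t ^ n) := by fun_prop
    have hc4 : Continuous (fun t : ℝ => Real.exp (2 * S r t)) := by fun_prop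
    have h5 := ((((hc2.tendsto 1).mono_left nhdsWithin_le_nhds).add hV1).sub
      ((hc3.tendsto 1).mono_left nhdsWithin_le_nhds)).mul
      ((hc4.tendsto 1).mono_left (nhdsWithin_le_nhds (s := Set.Iio 1)))
    convert h5 using 2
    ring
  have hev : ∀ᶠ t in 𝓝[<] (1 : ℝ),
      (∑' n, u n * t ^ n - ∑ n ∈ range r, u n * t ^ n) * ((1 - t) ^ 2 * Real.exp (2 * S r t))
      = t ^ (r - 1) * ∫ s in (0 : ℝ)..t, F r u c s := by
    have hmem : Set.Ico (0 : ℝ) 1 ∈ 𝓝[<] (1 : ℝ) := Ico_mem_nhdsLT zero_lt_one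
    filter_upwards [hmem] with t ht
    exact hid ht.1 ht.2
  have h6 := tendsto_nhds_unique hlim1 (hlim2.congr' (hev.mono fun t ht => ht.symm))
  rw [h6]
  simp

end Pool.Agent.X154.RSA
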