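import Mathlib

/-!
Random sequential adsorption of `r`-mers on the lattice `{1, …, n}`: definitions, and the
explicit formula for the asymptotic variance of the number of `r`-mers.
-/

namespace Pool.Agent.X154.RSA

open Finset

/-- The block (set of `r` consecutive sites) with leftmost site `b`. -/
def block (r b : ℕ) : Finset ℕ := Finset.Ico b (b + r)

/-- `free r n B`: the (leftmost sites of) the blocks of `r` consecutive sites of `{1, …, n}` that
are entirely uncovered when the set of (leftmost sites of) blocks placed so far is `B`. -/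
def free (r n : ℕ) (B : Finset ℕ) : Finset ℕ :=
  (Finset.Icc 1 n).filter (fun b => block r b ⊆ Finset.Icc 1 n ∧
    ∀ c ∈ B, Disjoint (block r b) (block r c))

/-- One placement: uniform among the blocks that are still entirely uncovered; nothing happens
when there is no such block (the configuration is jammed). -/
noncomputable def step (r n : ℕ) (B : Finset ℕ) : PMF (Finset ℕ) :=
  if h : (free r n B).Nonempty then
    (PMF.uniformOfFinset (free r n B) h).map (fun b => insert b B)
  else PMF.pure B

/-- Law of the set of placed blocks after `k` placements (starting from the empty lattice). -/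
noncomputable def config (r n : ℕ) : ℕ → PMF (Finset ℕ)
  | 0 => PMF.pure ∅
  | k + 1 => (config r n k).bind (step r n)

/-- Law of the jammed configuration: at most `n` placements are possible on `{1, …, n}`. -/
noncomputable def jammed (r n : ℕ) : PMF (Finset ℕ) := config r n n

/-- Law of the number `C_n` of `r`-mers in the jammed configuration. -/
noncomputable def countLaw (r n : ℕ) : PMF ℕ := (jammed r n).map Finset.card

/-- The weight `w_r(t) = exp(-2 ∑_{k=1}^{r-1} (1 - t^k)/k)` (so that `μ(r) = 1 - r ∫_0^1 w_r`). -/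
noncomputable def w (r : ℕ) (t : ℝ) : ℝ :=
  Real.exp (-2 * ∑ k ∈ Ico 1 r, (1 - t ^ k) / (k : ℝ))

/-- `W_r(t) = ∫_0^t w_r(s) ds`. -/
noncomputable def W (r : ℕ) (t : ℝ) : ℝ := ∫ s in (0 : ℝ)..t, w r s

/-- `α_r = W_r(1) = ∫_0^1 w_r(s) ds` (the limiting mean number of `r`-mers per site). -/
noncomputable def al (r : ℕ) : ℝ := W r 1

/-- The asymptotic variance
`v(r) = 2 ∫_0^1 w_r(t) { (1-t) ∑_{n<r} (1 - α_r (n+r))² tⁿ
  + (1-t)⁻² [ t^{r-1} W_r(t)/w_r(t) - α_r (t + r(1-t)) + (1-t) ]² } dt`. -/
noncomputable def v (r : ℕ) : ℝ :=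
  2 * ∫ t in (0 : ℝ)..1,
    (w r t * (1 - t) * ∑ n ∈ range r, (1 - al r * ((n : ℝ) + r)) ^ 2 * t ^ n
      + w r t / (1 - t) ^ 2 *
        (t ^ (r - 1) * (W r t / w r t) - al r * (t + r * (1 - t)) + (1 - t)) ^ 2)

end Pool.Agent.X154.RSA
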