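import Mathlib
import Pool.Agent.X154.RSA.B
import Pool.Agent.X154.RSA.Def

/-!
The asymptotic variance from the recursions for the first two moments.
-/

namespace Pool.Agent.X154.RSA

open Finset Filter Topology

theorem w_eq (r : ℕ) (t : ℝ) : w r t = Real.exp (2 * S r t) * Real.exp (-2 * S r 1) := by
  unfold w S
  rw [← Real.exp_add]
  congr 1
  have : ∑ k ∈ Ico 1 r, (1 - t ^ k) / (k : ℝ)
      = ∑ k ∈ Ico 1 r, (1 : ℝ) ^ k / (k : ℝ) - ∑ k ∈ Ico 1 r, t ^ k / (k : ℝ) := by
    rw [← Finset.sum_sub_distrib]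
    apply Finset.sum_congr rfl
    intro k _
    rw [one_pow]; ring
  rw [this]; ring

theorem w_pos (r : ℕ) (t : ℝ) : 0 < w r t := Real.exp_pos _

theorem continuous_w (r : ℕ) : Continuous (w r) := by
  unfold w; fun_prop

theorem W_eq (r : ℕ) (t : ℝ) :
    W r t = Real.exp (-2 * S r 1) * ∫ s in (0 : ℝ)..t, Real.exp (2 * S r s) := by
  unfold W
  rw [← intervalIntegral.integral_const_mul]
  apply intervalIntegral.integral_congr
  intro s _
  simp only
  rw [w_eq]; ring

/-- integration by parts identity -/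
theorem parts {r : ℕ} (hr : 1 ≤ r) (t : ℝ) :
    ∫ s in (0 : ℝ)..t, 2 * Real.exp (2 * S r s) * (1 - s ^ r)
      = (∫ s in (0 : ℝ)..t, Real.exp (2 * S r s)) + t * (1 - t) * Real.exp (2 * S r t) := by
  have hS := continuous_S r
  have hd : ∀ x : ℝ, HasDerivAt (fun s : ℝ => s * (1 - s) * Real.exp (2 * S r s))
      (2 * Real.exp (2 * S r x) * (1 - x ^ r) - Real.exp (2 * S r x)) x := by
    intro x
    have h1 : HasDerivAt (fun s : ℝ => s * (1 - s)) (1 * (1 - x) + x * (-1)) x :=
      (hasDerivAt_id x).mul ((hasDerivAt_id x).const_sub 1)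
    have h3 : HasDerivAt (fun z : ℝ => Real.exp (2 * S r z))
        (Real.exp (2 * S r x) * (2 * ∑ k ∈ Ico 1 r, x ^ (k - 1))) x :=
      ((hasDerivAt_S r x).const_mul 2).exp
    refine (h1.mul h3).congr_deriv ?_
    have h5 := one_sub_mul_geom hr x
    have h6 : x ^ r = x * x ^ (r - 1) := by
      rw [← pow_succ']; congr 1; omega
    rw [h6]
    set G := ∑ k ∈ Ico 1 r, x ^ (k - 1)
    set E := Real.exp (2 * S r x)
    have h7 : x * (1 - x) * (E * (2 * G)) = 2 * E * x * ((1 - x) * G) := by ring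
    rw [h7, h5]
    ring
  have hint : IntervalIntegrable (fun x => 2 * Real.exp (2 * S r x) * (1 - x ^ r)
      - Real.exp (2 * S r x)) MeasureTheory.volume 0 t := by
    apply Continuous.intervalIntegrable
    fun_prop
  have h := intervalIntegral.integral_eq_sub_of_hasDerivAt (fun x _ => hd x) hint
  rw [intervalIntegral.integral_sub] at h
  · simp only [zero_mul, sub_zero] at h
    linarith
  · apply Continuous.intervalIntegrable
    fun_prop
  · apply Continuous.intervalIntegrable
    fun_prop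

theorem nat_le_pow (n : ℕ) : (n : ℝ) + 1 ≤ 2 ^ n := by
  have := one_add_mul_le_pow (show (-2 : ℝ) ≤ 1 by norm_num) n
  norm_num at this
  linarith

theorem main_limit {r : ℕ} (hr : 1 ≤ r) (m s : ℕ → ℝ)
    (hm0 : ∀ n, n < r → m n = 0) (hs0 : ∀ n, n < r → s n = 0)
    (hm : ∀ n : ℕ, ((n : ℝ) + 1) * m (n + r) = ∑ i ∈ range (n + 1), (1 + m i + m (n - i)))
    (hs : ∀ n : ℕ, ((n : ℝ) + 1) * s (n + r) = ∑ i ∈ range (n + 1),
      (1 + s i + s (n - i) + 2 * m i + 2 * m (n - i) + 2 * m i * m (n - i))) :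
    Tendsto (fun n : ℕ => (s n - m n ^ 2) / n) atTop (𝓝 (v r)) := by
  have hrpos : (0 : ℝ) < r := by exact_mod_cast hr
  have hr1 : (1 : ℝ) ≤ r := by exact_mod_cast hr
  -- step 1
  set u : ℕ → ℝ := fun n => m n + 1 with hu
  have hreflect : ∀ (f : ℕ → ℝ) (n : ℕ), ∑ i ∈ range (n + 1), f (n - i)
      = ∑ i ∈ range (n + 1), f i := by
    intro f n
    have := Finset.sum_range_reflect f (n + 1)
    rw [← this]
    apply Finset.sum_congr rfl
    intro i _
    congr 1
  have hRu : Rec r u (fun _ => 0) := by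
    intro n
    simp only [hu]
    have h1 := hm n
    have h2 : ∑ i ∈ range (n + 1), (1 + m i + m (n - i))
        = (n + 1) + ∑ i ∈ range (n + 1), m i + ∑ i ∈ range (n + 1), m i := by
      rw [Finset.sum_add_distrib, Finset.sum_add_distrib, hreflect m n]
      simp
    have h3 : ∑ i ∈ range (n + 1), (m i + 1) = ∑ i ∈ range (n + 1), m i + (n + 1) := by
      rw [Finset.sum_add_distrib]; simp
    rw [h2] at h1
    rw [h3]
    linarith
  obtain ⟨L, K, hK0, hK⟩ := contraction hr u (fun _ => 0) hRu (ρ := 1 / 8) (C := 0)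
    (by norm_num) (by norm_num) le_rfl (by intro n; simp)
  have hbound : ∀ n : ℕ, |u n - L * ((n : ℝ) + r)| ≤ K * r * (1 / 4) ^ n := by
    intro n
    refine (hK n).trans ?_
    have h1 : (n : ℝ) + r ≤ r * 2 ^ n := by
      have := nat_le_pow n
      have hn0 : (0 : ℝ) ≤ n := by positivity
      nlinarith
    have h2 : (0 : ℝ) ≤ (1 / 8) ^ n := by positivity
    calc K * ((n : ℝ) + r) * (1 / 8) ^ n ≤ K * (r * 2 ^ n) * (1 / 8) ^ n := by
          apply mul_le_mul_of_nonneg_right _ h2
          exact mul_le_mul_of_nonneg_left h1 hK0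
      _ = K * r * (2 ^ n * (1 / 8) ^ n) := by ring
      _ = _ := by rw [← mul_pow]; norm_num
  have hsumd : Summable fun n : ℕ => |u n - L * ((n : ℝ) + r)| :=
    summable_of_geom (ρ := 1 / 4) (by norm_num) (by norm_num) hbound
  have hsum0 : Summable fun n : ℕ => |(fun _ => (0 : ℝ)) n| := by simp
  have hU0 : ∀ x : ℝ, (1 - x) * ∑ n ∈ range r, u n * x ^ n = 1 - x ^ r := by
    intro x
    have h1 : ∑ n ∈ range r, u n * x ^ n = ∑ n ∈ range r, x ^ n := by
      apply Finset.sum_congr rfl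
      intro n hn
      simp only [hu]
      rw [hm0 n (Finset.mem_range.1 hn)]; ring
    rw [h1]
    have := geom_sum_mul x r
    linarith
  have hF0 : ∀ x : ℝ, F r u (fun _ => 0) x = 2 * Real.exp (2 * S r x) * (1 - x ^ r) := by
    intro x
    unfold F
    rw [← hU0 x]
    simp
  have hintF0 : ∀ t : ℝ, ∫ x in (0 : ℝ)..t, F r u (fun _ => 0) x
      = (∫ x in (0 : ℝ)..t, Real.exp (2 * S r x)) + t * (1 - t) * Real.exp (2 * S r t) := by
    intro t
    rw [← parts hr t]
    apply intervalIntegral.integral_congr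
    intro x _
    exact hF0 x
  have hLal : L = al r := by
    have h1 := limit_identity hr u (fun _ => 0) hRu hsumd hsum0
    rw [hintF0 1] at h1
    unfold al
    rw [W_eq]
    have h2 : Real.exp (-2 * S r 1) * Real.exp (2 * S r 1) = 1 := by
      rw [← Real.exp_add]; simp
    have h3 : L = Real.exp (-2 * S r 1) * (L * Real.exp (2 * S r 1)) := by
      calc L = L * (Real.exp (-2 * S r 1) * Real.exp (2 * S r 1)) := by rw [h2, mul_one]
        _ = _ := by ring
    rw [h3, h1]
    ring
  subst hLal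
  -- D(t)
  set d : ℕ → ℝ := fun n => u n - al r * ((n : ℝ) + r) with hd
  have hdb : ∀ n, |d n| ≤ K * r * (1 / 4) ^ n := hbound
  have hKr : 0 ≤ K * r := by positivity
  have hKu : ∀ n : ℕ, |u n| ≤ (K * r + |al r| * r) * ((n : ℝ) + 1) := by
    intro n
    have h1 : |u n - al r * ((n : ℝ) + r)| ≤ K * r := by
      refine (hbound n).trans ?_
      have : (1 / 4 : ℝ) ^ n ≤ 1 := pow_le_one₀ (by norm_num) (by norm_num)
      nlinarith
    have h2 : |u n| ≤ |u n - al r * ((n : ℝ) + r)| + |al r * ((n : ℝ) + r)| := by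
      have := abs_add_le (u n - al r * ((n : ℝ) + r)) (al r * ((n : ℝ) + r))
      simpa using this
    have hn0 : (0 : ℝ) ≤ n := by positivity
    rw [abs_mul, abs_of_pos (by positivity : (0 : ℝ) < (n : ℝ) + r)] at h2
    have h3 : (n : ℝ) + r ≤ r * (n + 1) := by nlinarith
    have h4 : |al r| * ((n : ℝ) + r) ≤ |al r| * (r * (n + 1)) :=
      mul_le_mul_of_nonneg_left h3 (abs_nonneg _)
    nlinarith
  have hD : ∀ t : ℝ, 0 ≤ t → t < 1 → (1 - t) ^ 2 * ∑' n, d n * t ^ n
      = t ^ (r - 1) * (W r t / w r t) - al r * (t + r * (1 - t)) + (1 - t) := by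
    intro t ht0 ht1
    have hne : 1 - t ≠ 0 := by linarith
    have h1 := series_identity hr u (fun _ => 0) hRu hKu hsum0 ht0 ht1
    rw [hintF0 t] at h1
    have hlin := tsum_linear (r := r) (al r) ht0 ht1
    have hsd : Summable (fun n : ℕ => d n * t ^ n) := by
      refine Summable.of_norm_bounded hsumd (fun n => ?_)
      rw [Real.norm_eq_abs, abs_mul, abs_pow, abs_of_nonneg ht0]
      calc |d n| * t ^ n ≤ |d n| * 1 :=
            mul_le_mul_of_nonneg_left (pow_le_one₀ ht0 ht1.le) (abs_nonneg _)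
        _ = _ := mul_one _
    have h3 : ∑' n, u n * t ^ n = (∑' n : ℕ, d n * t ^ n)
        + al r * (t / (1 - t) ^ 2 + r / (1 - t)) := by
      rw [← hlin.tsum_eq, ← hsd.tsum_add hlin.summable]
      apply tsum_congr
      intro n
      simp only [hd]
      ring
    rw [h3] at h1
    have h4 := hU0 t
    have hE : Real.exp (2 * S r t) ≠ 0 := (Real.exp_pos _).ne'
    have hE1 : Real.exp (-2 * S r 1) ≠ 0 := (Real.exp_pos _).ne'
    have hWw : W r t / w r t = (∫ x in (0 : ℝ)..t, Real.exp (2 * S r x)) / Real.exp (2 * S r t) := by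
      rw [W_eq, w_eq]
      field_simp
    rw [hWw]
    set I := ∫ x in (0 : ℝ)..t, Real.exp (2 * S r x) with hI
    set E := Real.exp (2 * S r t) with hEE
    set DD := ∑' n : ℕ, d n * t ^ n with hDD
    set U0 := ∑ n ∈ range r, u n * t ^ n with hUU
    have h6 : t ^ r = t * t ^ (r - 1) := by
      rw [← pow_succ']; congr 1; omega
    rw [h6] at h4
    have h7 : (1 - t) ^ 2 * DD = (t ^ (r - 1) * (I + t * (1 - t) * E)) / E
        - (al r * (t + r * (1 - t))) + (1 - t) * ((1 - t) * U0) := by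
      rw [← h1]
      field_simp
      ring
    rw [h7, h4]
    field_simp
    ring
  -- second moment sequence
  set q : ℕ → ℝ := fun n => s n + 2 * (1 - al r * ((n : ℝ) + r)) * m n
    + (1 - al r * ((n : ℝ) + r)) ^ 2 with hq
  set c : ℕ → ℝ := fun n => ∑ i ∈ range (n + 1), d i * d (n - i) with hc
  have hRq : Rec r q c := by
    intro n
    simp only [hq, hc]
    set a : ℝ := 1 - al r * (((n + r : ℕ) : ℝ) + r) with ha
    have h1 : 2 * ∑ i ∈ range (n + 1), (s i + 2 * (1 - al r * ((i : ℝ) + r)) * m i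
        + (1 - al r * ((i : ℝ) + r)) ^ 2)
        = ∑ i ∈ range (n + 1), ((s i + 2 * (1 - al r * ((i : ℝ) + r)) * m i
        + (1 - al r * ((i : ℝ) + r)) ^ 2) + (s (n - i)
        + 2 * (1 - al r * (((n - i : ℕ) : ℝ) + r)) * m (n - i)
        + (1 - al r * (((n - i : ℕ) : ℝ) + r)) ^ 2)) := by
      have h := hreflect (fun i => s i + 2 * (1 - al r * ((i : ℝ) + r)) * m i
        + (1 - al r * ((i : ℝ) + r)) ^ 2) n
      rw [two_mul]
      nth_rewrite 2 [← h]
      exact Finset.sum_add_distrib.symm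
    rw [h1, Finset.mul_sum, ← Finset.sum_add_distrib]
    have h2 : ((n : ℝ) + 1) * (s (n + r) + 2 * a * m (n + r) + a ^ 2)
        = ((n : ℝ) + 1) * s (n + r) + 2 * a * (((n : ℝ) + 1) * m (n + r))
          + ((n : ℝ) + 1) * a ^ 2 := by ring
    rw [h2, hs n, hm n, Finset.mul_sum, ← Finset.sum_add_distrib]
    have h3 : ((n : ℝ) + 1) * a ^ 2 = ∑ _i ∈ range (n + 1), a ^ 2 := by simp
    rw [h3, ← Finset.sum_add_distrib]
    apply Finset.sum_congr rfl
    intro i hi
    have hi' : i ≤ n := by have := Finset.mem_range.1 hi; omega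
    simp only [hd, hu]
    rw [Nat.cast_sub hi']
    have : a = 1 - al r * ((n : ℝ) + r + r) := by rw [ha]; push_cast; ring
    rw [this]
    ring
  have hcb : ∀ n, |c n| ≤ (K * r) ^ 2 * (1 / 2) ^ n := by
    intro n
    simp only [hc]
    calc |∑ i ∈ range (n + 1), d i * d (n - i)|
        ≤ ∑ i ∈ range (n + 1), |d i * d (n - i)| := Finset.abs_sum_le_sum_abs _ _
      _ ≤ ∑ i ∈ range (n + 1), (K * r) ^ 2 * (1 / 4) ^ n := by
          apply Finset.sum_le_sum
          intro i hi
          have hi' : i ≤ n := by have := Finset.mem_range.1 hi; omega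
          rw [abs_mul]
          calc |d i| * |d (n - i)| ≤ (K * r * (1 / 4) ^ i) * (K * r * (1 / 4) ^ (n - i)) :=
                mul_le_mul (hdb i) (hdb _) (abs_nonneg _) (by positivity)
            _ = (K * r) ^ 2 * ((1 / 4) ^ i * (1 / 4) ^ (n - i)) := by ring
            _ = _ := by rw [← pow_add, Nat.add_sub_cancel' hi']
      _ = ((n : ℝ) + 1) * ((K * r) ^ 2 * (1 / 4) ^ n) := by simp
      _ ≤ 2 ^ n * ((K * r) ^ 2 * (1 / 4) ^ n) :=
          mul_le_mul_of_nonneg_right (nat_le_pow n) (by positivity)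
      _ = (K * r) ^ 2 * (2 ^ n * (1 / 4) ^ n) := by ring
      _ = _ := by rw [← mul_pow]; norm_num
  obtain ⟨Lq, K2, hK20, hK2⟩ := contraction hr q c hRq (ρ := 1 / 2) (C := (K * r) ^ 2)
    (by norm_num) (by norm_num) (by positivity) hcb
  have hsumc : Summable fun n => |c n| :=
    summable_of_geom (ρ := 1 / 2) (by norm_num) (by norm_num) hcb
  have hqsum : Summable fun n : ℕ => |q n - Lq * ((n : ℝ) + r)| := by
    have h1 := summable_aux (fun n => K2 * ((n : ℝ) + r)) (K := K2 * r) (k := 1) ?_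
      (t := 1 / 2) (by rw [abs_of_pos] <;> norm_num)
    · refine Summable.of_nonneg_of_le (fun n => abs_nonneg _) (fun n => ?_) h1
      exact (hK2 n).trans (le_abs_self _)
    · intro n
      rw [abs_of_nonneg (by positivity), pow_one]
      have hn0 : (0 : ℝ) ≤ n := by positivity
      have : (n : ℝ) + r ≤ r * (n + 1) := by nlinarith
      calc K2 * ((n : ℝ) + r) ≤ K2 * (r * (n + 1)) := mul_le_mul_of_nonneg_left this hK20
        _ = _ := by ring
  have hlimq := limit_identity hr q c hRq hqsum hsumc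
  have hLv : Lq = v r := by
    have h2 : Real.exp (-2 * S r 1) * Real.exp (2 * S r 1) = 1 := by
      rw [← Real.exp_add]; simp
    have h3 : Lq = Real.exp (-2 * S r 1) * (Lq * Real.exp (2 * S r 1)) := by
      calc Lq = Lq * (Real.exp (-2 * S r 1) * Real.exp (2 * S r 1)) := by rw [h2, mul_one]
        _ = _ := by ring
    rw [h3, hlimq]
    unfold v
    rw [← intervalIntegral.integral_const_mul, ← intervalIntegral.integral_const_mul,
      intervalIntegral.integral_of_le zero_le_one, intervalIntegral.integral_of_le zero_le_one,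
      MeasureTheory.integral_Ioc_eq_integral_Ioo, MeasureTheory.integral_Ioc_eq_integral_Ioo]
    apply MeasureTheory.setIntegral_congr_fun measurableSet_Ioo
    intro t ht
    have ht0 : 0 ≤ t := ht.1.le
    have ht1 : t < 1 := ht.2
    have hne : 1 - t ≠ 0 := by linarith
    have hn : ‖t‖ < 1 := by rw [Real.norm_eq_abs, abs_of_nonneg ht0]; exact ht1
    simp only
    rw [← hD t ht0 ht1]
    unfold F
    have hsd : Summable (fun n : ℕ => ‖d n * t ^ n‖) := by
      refine Summable.of_nonneg_of_le (fun n => norm_nonneg _) (fun n => ?_) hsumd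
      rw [Real.norm_eq_abs, abs_mul, abs_pow, abs_of_nonneg ht0]
      calc |d n| * t ^ n ≤ |d n| * 1 :=
            mul_le_mul_of_nonneg_left (pow_le_one₀ ht0 ht1.le) (abs_nonneg _)
        _ = _ := mul_one _
    have hprod : (∑' n, d n * t ^ n) * (∑' n, d n * t ^ n) = ∑' n, c n * t ^ n := by
      rw [tsum_mul_tsum_eq_tsum_sum_range_of_summable_norm hsd hsd]
      apply tsum_congr
      intro n
      simp only [hc]
      rw [Finset.sum_mul]
      apply Finset.sum_congr rfl
      intro i hi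
      have hi' : i ≤ n := by have := Finset.mem_range.1 hi; omega
      calc d i * t ^ i * (d (n - i) * t ^ (n - i))
          = d i * d (n - i) * (t ^ i * t ^ (n - i)) := by ring
        _ = _ := by rw [← pow_add, Nat.add_sub_cancel' hi']
    rw [← hprod]
    have hQ0 : ∑ n ∈ range r, q n * t ^ n
        = ∑ n ∈ range r, (1 - al r * ((n : ℝ) + r)) ^ 2 * t ^ n := by
      apply Finset.sum_congr rfl
      intro n hn
      have hn' := Finset.mem_range.1 hn
      simp only [hq]
      rw [hm0 n hn', hs0 n hn']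
      ring
    rw [hQ0, w_eq]
    field_simp
  -- conclusion
  rw [← hLv]
  have hd0 : Tendsto d atTop (𝓝 0) := by
    have h1 := hsumd.tendsto_atTop_zero
    exact (tendsto_zero_iff_abs_tendsto_zero _).2 h1
  have hq0 : Tendsto (fun n : ℕ => q n - Lq * ((n : ℝ) + r)) atTop (𝓝 0) := by
    have h1 := hqsum.tendsto_atTop_zero
    exact (tendsto_zero_iff_abs_tendsto_zero _).2 h1
  have hinv : Tendsto (fun n : ℕ => ((n : ℝ))⁻¹) atTop (𝓝 0) := tendsto_inv_atTop_nhds_zero_nat
  have hlim : Tendsto (fun n : ℕ => (q n - Lq * ((n : ℝ) + r)) * ((n : ℝ))⁻¹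
      + Lq * (1 + r * ((n : ℝ))⁻¹) - d n ^ 2 * ((n : ℝ))⁻¹) atTop
      (𝓝 (0 * 0 + Lq * (1 + r * 0) - 0 ^ 2 * 0)) :=
    ((hq0.mul hinv).add ((tendsto_const_nhds.add (hinv.const_mul _)).const_mul _)).sub
      ((hd0.pow 2).mul hinv)
  have e0 : (0 : ℝ) * 0 + Lq * (1 + r * 0) - 0 ^ 2 * 0 = Lq := by ring
  rw [e0] at hlim
  refine hlim.congr' ?_
  filter_upwards [eventually_gt_atTop 0] with n hn
  have hn' : (n : ℝ) ≠ 0 := by exact_mod_cast hn.ne'
  simp only [hq, hd, hu]
  field_simp
  ring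

end Pool.Agent.X154.RSA
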