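import Mathlib

/-!
Combinatorics of random sequential adsorption: the first two moments of the number of
further placements, as functions of the set of free blocks.
-/

namespace Pool.Agent.X154.RSA

open Finset

/-- blocks of `A` compatible with the block `b`. -/
def cut (r : ℕ) (A : Finset ℕ) (b : ℕ) : Finset ℕ :=
  (A.erase b).filter (fun c => c + r ≤ b ∨ b + r ≤ c)

theorem cut_card_lt {r : ℕ} {A : Finset ℕ} {b : ℕ} (hb : b ∈ A) : (cut r A b).card < A.card := by
  apply Finset.card_lt_card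
  unfold cut
  exact lt_of_le_of_lt (Finset.filter_subset _ _) (Finset.erase_ssubset hb)

/-- expected number of further placements. -/
noncomputable def e1 (r : ℕ) (A : Finset ℕ) : ℝ :=
  (∑ b : {b // b ∈ A}, (1 + e1 r (cut r A b.1))) / A.card
termination_by A.card
decreasing_by exact cut_card_lt b.2

/-- expected square of the number of further placements. -/
noncomputable def e2 (r : ℕ) (A : Finset ℕ) : ℝ :=
  (∑ b : {b // b ∈ A}, (1 + 2 * e1 r (cut r A b.1) + e2 r (cut r A b.1))) / A.card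
termination_by A.card
decreasing_by exact cut_card_lt b.2

theorem e1_eq (r : ℕ) (A : Finset ℕ) :
    (A.card : ℝ) * e1 r A = ∑ b ∈ A, (1 + e1 r (cut r A b)) := by
  rw [e1]
  rw [Finset.sum_coe_sort A (fun b => 1 + e1 r (cut r A b))]
  rcases A.eq_empty_or_nonempty with h | h
  · subst h; simp
  · have : (A.card : ℝ) ≠ 0 := by exact_mod_cast h.card_pos.ne'
    field_simp

theorem e2_eq (r : ℕ) (A : Finset ℕ) :
    (A.card : ℝ) * e2 r A = ∑ b ∈ A, (1 + 2 * e1 r (cut r A b) + e2 r (cut r A b)) := by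
  rw [e2]
  rw [Finset.sum_coe_sort A (fun b => 1 + 2 * e1 r (cut r A b) + e2 r (cut r A b))]
  rcases A.eq_empty_or_nonempty with h | h
  · subst h; simp
  · have : (A.card : ℝ) ≠ 0 := by exact_mod_cast h.card_pos.ne'
    field_simp

theorem e1_empty (r : ℕ) : e1 r ∅ = 0 := by rw [e1]; simp

theorem e2_empty (r : ℕ) : e2 r ∅ = 0 := by rw [e2]; simp

theorem cut_union_left {r : ℕ} (hr : 1 ≤ r) {A A' : Finset ℕ}
    (h : ∀ a ∈ A, ∀ a' ∈ A', a + r ≤ a') {b : ℕ} (hb : b ∈ A) :
    cut r (A ∪ A') b = cut r A b ∪ A' := by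
  ext c
  simp only [cut, Finset.mem_filter, Finset.mem_erase, Finset.mem_union]
  constructor
  · rintro ⟨⟨h1, h2 | h2⟩, h3⟩
    · exact Or.inl ⟨⟨h1, h2⟩, h3⟩
    · exact Or.inr h2
  · rintro (⟨⟨h1, h2⟩, h3⟩ | h2)
    · exact ⟨⟨h1, Or.inl h2⟩, h3⟩
    · have := h b hb c h2
      exact ⟨⟨by omega, Or.inr h2⟩, Or.inr this⟩

theorem cut_union_right {r : ℕ} (hr : 1 ≤ r) {A A' : Finset ℕ}
    (h : ∀ a ∈ A, ∀ a' ∈ A', a + r ≤ a') {b : ℕ} (hb : b ∈ A') :
    cut r (A ∪ A') b = A ∪ cut r A' b := by
  ext c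
  simp only [cut, Finset.mem_filter, Finset.mem_erase, Finset.mem_union]
  constructor
  · rintro ⟨⟨h1, h2 | h2⟩, h3⟩
    · exact Or.inl h2
    · exact Or.inr ⟨⟨h1, h2⟩, h3⟩
  · rintro (h2 | ⟨⟨h1, h2⟩, h3⟩)
    · have := h c h2 b hb
      exact ⟨⟨by omega, Or.inl h2⟩, Or.inl this⟩
    · exact ⟨⟨h1, Or.inr h2⟩, h3⟩

theorem cut_subset (r : ℕ) (A : Finset ℕ) (b : ℕ) : cut r A b ⊆ A :=
  (Finset.filter_subset _ _).trans (Finset.erase_subset _ _)

theorem e_union {r : ℕ} (hr : 1 ≤ r) : ∀ N : ℕ, ∀ A A' : Finset ℕ, A.card + A'.card = N →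
    (∀ a ∈ A, ∀ a' ∈ A', a + r ≤ a') →
    e1 r (A ∪ A') = e1 r A + e1 r A' ∧
    e2 r (A ∪ A') = e2 r A + 2 * e1 r A * e1 r A' + e2 r A' := by
  intro N
  induction N using Nat.strong_induction_on with
  | _ N ih =>
    intro A A' hN hsep
    have hdisj : Disjoint A A' := by
      rw [Finset.disjoint_left]
      intro a h1 h2
      have := hsep a h1 a h2
      omega
    by_cases h0 : N = 0
    · have hA : A = ∅ := Finset.card_eq_zero.1 (by omega)
      have hA' : A' = ∅ := Finset.card_eq_zero.1 (by omega)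
      subst hA hA'
      simp [e1_empty, e2_empty]
    have hcard : ((A ∪ A').card : ℝ) = A.card + A'.card := by
      rw [Finset.card_union_of_disjoint hdisj]; push_cast; ring
    have hne : ((A ∪ A').card : ℝ) ≠ 0 := by
      rw [hcard]
      have : (A.card : ℝ) + A'.card = N := by exact_mod_cast hN
      rw [this]; exact_mod_cast h0
    have hL : ∀ b ∈ A, e1 r (cut r (A ∪ A') b) = e1 r (cut r A b) + e1 r A' ∧
        e2 r (cut r (A ∪ A') b)
          = e2 r (cut r A b) + 2 * e1 r (cut r A b) * e1 r A' + e2 r A' := by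
      intro b hb
      rw [cut_union_left hr hsep hb]
      have h1 := cut_card_lt (r := r) hb
      exact ih _ (by omega) (cut r A b) A' rfl
        (fun a ha a' ha' => hsep a (cut_subset _ _ _ ha) a' ha')
    have hR : ∀ b ∈ A', e1 r (cut r (A ∪ A') b) = e1 r A + e1 r (cut r A' b) ∧
        e2 r (cut r (A ∪ A') b)
          = e2 r A + 2 * e1 r A * e1 r (cut r A' b) + e2 r (cut r A' b) := by
      intro b hb
      rw [cut_union_right hr hsep hb]
      have h1 := cut_card_lt (r := r) hb
      exact ih _ (by omega) A (cut r A' b) rfl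
        (fun a ha a' ha' => hsep a ha a' (cut_subset _ _ _ ha'))
    have E1 := e1_eq r (A ∪ A')
    have E2 := e2_eq r (A ∪ A')
    rw [Finset.sum_union hdisj] at E1 E2
    have a1 : ∑ b ∈ A, (1 + e1 r (cut r (A ∪ A') b))
        = A.card * e1 r A + A.card * e1 r A' := by
      rw [e1_eq r A]
      have : (A.card : ℝ) * e1 r A' = ∑ _b ∈ A, e1 r A' := by simp
      rw [this, ← Finset.sum_add_distrib]
      apply Finset.sum_congr rfl
      intro b hb
      rw [(hL b hb).1]; ring
    have a2 : ∑ b ∈ A', (1 + e1 r (cut r (A ∪ A') b))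
        = A'.card * e1 r A' + A'.card * e1 r A := by
      rw [e1_eq r A']
      have : (A'.card : ℝ) * e1 r A = ∑ _b ∈ A', e1 r A := by simp
      rw [this, ← Finset.sum_add_distrib]
      apply Finset.sum_congr rfl
      intro b hb
      rw [(hR b hb).1]; ring
    have b1 : ∑ b ∈ A, (1 + 2 * e1 r (cut r (A ∪ A') b) + e2 r (cut r (A ∪ A') b))
        = A.card * e2 r A + 2 * e1 r A' * (A.card * e1 r A) + A.card * e2 r A' := by
      rw [e1_eq r A, e2_eq r A, Finset.mul_sum]
      have : (A.card : ℝ) * e2 r A' = ∑ _b ∈ A, e2 r A' := by simp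
      rw [this, ← Finset.sum_add_distrib, ← Finset.sum_add_distrib]
      apply Finset.sum_congr rfl
      intro b hb
      rw [(hL b hb).1, (hL b hb).2]; ring
    have b2 : ∑ b ∈ A', (1 + 2 * e1 r (cut r (A ∪ A') b) + e2 r (cut r (A ∪ A') b))
        = A'.card * e2 r A' + 2 * e1 r A * (A'.card * e1 r A') + A'.card * e2 r A := by
      rw [e1_eq r A', e2_eq r A', Finset.mul_sum]
      have : (A'.card : ℝ) * e2 r A = ∑ _b ∈ A', e2 r A := by simp
      rw [this, ← Finset.sum_add_distrib, ← Finset.sum_add_distrib]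
      apply Finset.sum_congr rfl
      intro b hb
      rw [(hR b hb).1, (hR b hb).2]; ring
    rw [a1, a2] at E1
    rw [b1, b2] at E2
    constructor
    · apply mul_left_cancel₀ hne
      rw [E1, hcard]; ring
    · apply mul_left_cancel₀ hne
      rw [E2, hcard]; ring

theorem cut_image (r t : ℕ) (A : Finset ℕ) (b : ℕ) :
    cut r (A.image (· + t)) (b + t) = (cut r A b).image (· + t) := by
  ext c
  simp only [cut, Finset.mem_filter, Finset.mem_erase, Finset.mem_image]
  constructor
  · rintro ⟨⟨h1, a, ha, rfl⟩, h3⟩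
    refine ⟨a, ⟨⟨?_, ha⟩, ?_⟩, rfl⟩
    · rintro rfl; exact h1 rfl
    · rcases h3 with h3 | h3
      · left; omega
      · right; omega
  · rintro ⟨a, ⟨⟨h1, ha⟩, h3⟩, rfl⟩
    refine ⟨⟨?_, a, ha, rfl⟩, ?_⟩
    · intro h; exact h1 (by omega)
    · rcases h3 with h3 | h3
      · left; omega
      · right; omega

theorem e_image (r t : ℕ) : ∀ N : ℕ, ∀ A : Finset ℕ, A.card = N →
    e1 r (A.image (· + t)) = e1 r A ∧ e2 r (A.image (· + t)) = e2 r A := by
  intro N
  induction N using Nat.strong_induction_on with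
  | _ N ih =>
    intro A hN
    rcases A.eq_empty_or_nonempty with h | h
    · subst h; simp
    have hinj : Function.Injective (fun x : ℕ => x + t) := fun a b h => by simpa using h
    have hne : (A.card : ℝ) ≠ 0 := by exact_mod_cast h.card_pos.ne'
    have hc : ((A.image (· + t)).card : ℝ) = A.card := by
      rw [Finset.card_image_of_injective _ hinj]
    have hb : ∀ b ∈ A, e1 r (cut r (A.image (· + t)) (b + t)) = e1 r (cut r A b) ∧
        e2 r (cut r (A.image (· + t)) (b + t)) = e2 r (cut r A b) := by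
      intro b hb
      rw [cut_image]
      exact ih _ (by rw [← hN]; exact cut_card_lt hb) _ rfl
    have E1 := e1_eq r (A.image (· + t))
    have E2 := e2_eq r (A.image (· + t))
    rw [Finset.sum_image (fun a _ b _ h => hinj h), hc] at E1 E2
    constructor
    · apply mul_left_cancel₀ hne
      rw [E1, e1_eq]
      apply Finset.sum_congr rfl
      intro b hb'
      rw [(hb b hb').1]
    · apply mul_left_cancel₀ hne
      rw [E2, e2_eq]
      apply Finset.sum_congr rfl
      intro b hb'
      rw [(hb b hb').1, (hb b hb').2]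

theorem cut_range {r : ℕ} (hr : 1 ≤ r) {n b : ℕ} (hb : b ≤ n) :
    cut r (range (n + 1)) b
      = range (b + 1 - r) ∪ (range (n - b + 1 - r)).image (· + (b + r)) := by
  ext c
  simp only [cut, Finset.mem_filter, Finset.mem_erase, Finset.mem_union, Finset.mem_range,
    Finset.mem_image]
  constructor
  · rintro ⟨⟨h1, h2⟩, h3 | h3⟩
    · left; omega
    · right; exact ⟨c - (b + r), by omega, by omega⟩
  · rintro (h | ⟨a, h, rfl⟩)
    · exact ⟨⟨by omega, by omega⟩, Or.inl (by omega)⟩
    · exact ⟨⟨by omega, by omega⟩, Or.inr (by omega)⟩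

/-- mean of the number of `r`-mers on an interval of length `n`. -/
noncomputable def mm (r n : ℕ) : ℝ := e1 r (range (n + 1 - r))

/-- second moment of the number of `r`-mers on an interval of length `n`. -/
noncomputable def ss (r n : ℕ) : ℝ := e2 r (range (n + 1 - r))

theorem mm_zero {r n : ℕ} (h : n < r) : mm r n = 0 := by
  unfold mm
  rw [show n + 1 - r = 0 by omega, Finset.range_zero, e1_empty]

theorem ss_zero {r n : ℕ} (h : n < r) : ss r n = 0 := by
  unfold ss
  rw [show n + 1 - r = 0 by omega, Finset.range_zero, e2_empty]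

theorem e_cut_range {r : ℕ} (hr : 1 ≤ r) {n b : ℕ} (hb : b ≤ n) :
    e1 r (cut r (range (n + 1)) b) = mm r b + mm r (n - b) ∧
    e2 r (cut r (range (n + 1)) b) = ss r b + 2 * mm r b * mm r (n - b) + ss r (n - b) := by
  rw [cut_range hr hb]
  have h1 := e_union hr _ (range (b + 1 - r)) ((range (n - b + 1 - r)).image (· + (b + r))) rfl
    (by
      intro a ha a' ha'
      simp only [Finset.mem_range, Finset.mem_image] at ha ha'
      obtain ⟨x, hx, rfl⟩ := ha'
      omega)
  have h2 := e_image r (b + r) _ (range (n - b + 1 - r)) rfl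
  rw [h1.1, h1.2, h2.1, h2.2]
  unfold mm ss
  exact ⟨rfl, rfl⟩

theorem mm_rec {r : ℕ} (hr : 1 ≤ r) (n : ℕ) :
    ((n : ℝ) + 1) * mm r (n + r) = ∑ i ∈ range (n + 1), (1 + mm r i + mm r (n - i)) := by
  have h := e1_eq r (range (n + 1))
  rw [Finset.card_range] at h
  push_cast at h
  have e : mm r (n + r) = e1 r (range (n + 1)) := by
    unfold mm; congr 2; omega
  rw [e, h]
  apply Finset.sum_congr rfl
  intro b hb
  have hb' : b ≤ n := by have := Finset.mem_range.1 hb; omega
  rw [(e_cut_range hr hb').1]; ring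

theorem ss_rec {r : ℕ} (hr : 1 ≤ r) (n : ℕ) :
    ((n : ℝ) + 1) * ss r (n + r) = ∑ i ∈ range (n + 1),
      (1 + ss r i + ss r (n - i) + 2 * mm r i + 2 * mm r (n - i) + 2 * mm r i * mm r (n - i)) := by
  have h := e2_eq r (range (n + 1))
  rw [Finset.card_range] at h
  push_cast at h
  have e : ss r (n + r) = e2 r (range (n + 1)) := by
    unfold ss; congr 2; omega
  rw [e, h]
  apply Finset.sum_congr rfl
  intro b hb
  have hb' : b ≤ n := by have := Finset.mem_range.1 hb; omega
  rw [(e_cut_range hr hb').1, (e_cut_range hr hb').2]; ring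

end Pool.Agent.X154.RSA
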