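import Mathlib
import Pool.Agent.X154.RSA.Def
import Pool.Agent.X154.RSA.D

/-!
The first two moments of the number of `r`-mers in the jammed configuration.
-/

namespace Pool.Agent.X154.RSA

open Finset MeasureTheory ProbabilityTheory
open scoped ENNReal

theorem tsum_bind {α β : Type*} (p : PMF α) (f : α → PMF β) (g : β → ℝ≥0∞) :
    ∑' b, (p.bind f) b * g b = ∑' a, p a * ∑' b, f a b * g b := by
  simp only [PMF.bind_apply]
  calc ∑' b, (∑' a, p a * f a b) * g b = ∑' b, ∑' a, p a * f a b * g b := by
        apply tsum_congr; intro b; rw [ENNReal.tsum_mul_right]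
    _ = ∑' a, ∑' b, p a * f a b * g b := ENNReal.tsum_comm
    _ = ∑' a, p a * ∑' b, f a b * g b := by
        apply tsum_congr; intro a
        rw [← ENNReal.tsum_mul_left]
        apply tsum_congr; intro b
        rw [mul_assoc]

theorem tsum_pure {α : Type*} (a : α) (g : α → ℝ≥0∞) :
    ∑' b, (PMF.pure a) b * g b = g a := by
  classical
  rw [tsum_eq_single a]
  · simp
  · intro b hb
    simp [PMF.pure_apply, hb]

theorem tsum_map {α β : Type*} (p : PMF α) (f : α → β) (g : β → ℝ≥0∞) :
    ∑' b, (p.map f) b * g b = ∑' a, p a * g (f a) := by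
  have : p.map f = p.bind (fun a => PMF.pure (f a)) := rfl
  rw [this, tsum_bind]
  apply tsum_congr
  intro a
  rw [tsum_pure]

theorem tsum_uniform {α : Type*} (s : Finset α) (hs : s.Nonempty) (φ : α → ℝ)
    (hφ : ∀ a, 0 ≤ φ a) :
    ∑' a, (PMF.uniformOfFinset s hs) a * ENNReal.ofReal (φ a)
      = ENNReal.ofReal ((∑ a ∈ s, φ a) / s.card) := by
  classical
  have hc : (0 : ℝ) < s.card := by exact_mod_cast hs.card_pos
  rw [tsum_eq_sum (s := s)]
  · rw [ENNReal.ofReal_div_of_pos hc, ENNReal.ofReal_sum_of_nonneg (fun a _ => hφ a)]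
    rw [div_eq_mul_inv, Finset.sum_mul]
    apply Finset.sum_congr rfl
    intro a ha
    rw [PMF.uniformOfFinset_apply_of_mem hs ha, ENNReal.ofReal_natCast, mul_comm]
  · intro a ha
    rw [PMF.uniformOfFinset_apply_of_notMem hs ha, zero_mul]

/-- one-step expectation operator -/
noncomputable def T (r n : ℕ) (φ : Finset ℕ → ℝ) (B : Finset ℕ) : ℝ :=
  if (free r n B).Nonempty then (∑ b ∈ free r n B, φ (insert b B)) / (free r n B).card else φ B

theorem T_nonneg {r n : ℕ} {φ : Finset ℕ → ℝ} (hφ : ∀ B, 0 ≤ φ B) (B : Finset ℕ) :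
    0 ≤ T r n φ B := by
  unfold T
  split_ifs
  · exact div_nonneg (Finset.sum_nonneg fun b _ => hφ _) (by positivity)
  · exact hφ B

theorem tsum_step {r n : ℕ} {φ : Finset ℕ → ℝ} (hφ : ∀ B, 0 ≤ φ B) (B : Finset ℕ) :
    ∑' B', step r n B B' * ENNReal.ofReal (φ B') = ENNReal.ofReal (T r n φ B) := by
  unfold step T
  split_ifs with h
  · rw [tsum_map, tsum_uniform _ h (fun b => φ (insert b B)) (fun b => hφ _)]
  · rw [tsum_pure]

theorem tsum_config {r n : ℕ} (k : ℕ) : ∀ {φ : Finset ℕ → ℝ}, (∀ B, 0 ≤ φ B) →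
    ∑' B, config r n k B * ENNReal.ofReal (φ B) = ENNReal.ofReal ((T r n)^[k] φ ∅) := by
  induction k with
  | zero =>
    intro φ _
    simp only [config, Function.iterate_zero, id]
    rw [tsum_pure]
  | succ k ih =>
    intro φ hφ
    simp only [config]
    rw [tsum_bind, Function.iterate_succ_apply]
    rw [← ih (fun B => T_nonneg hφ B)]
    apply tsum_congr
    intro B
    rw [tsum_step hφ]

theorem disj_iff {r : ℕ} (hr : 1 ≤ r) (b c : ℕ) :
    Disjoint (block r b) (block r c) ↔ (b + r ≤ c ∨ c + r ≤ b) := by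
  unfold block
  rw [Finset.disjoint_left]
  constructor
  · intro h
    by_contra hcon
    push Not at hcon
    have := @h (max b c) (by rw [Finset.mem_Ico]; omega)
    apply this
    rw [Finset.mem_Ico]
    omega
  · intro h a ha ha'
    rw [Finset.mem_Ico] at ha ha'
    omega

theorem free_insert {r : ℕ} (hr : 1 ≤ r) (n : ℕ) (B : Finset ℕ) (b : ℕ) :
    free r n (insert b B) = cut r (free r n B) b := by
  ext c
  simp only [free, cut, Finset.mem_filter, Finset.mem_erase, Finset.mem_insert, forall_eq_or_imp]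
  rw [disj_iff hr c b]
  constructor
  · rintro ⟨h1, h2, h3, h4⟩
    exact ⟨⟨by omega, h1, h2, h4⟩, h3⟩
  · rintro ⟨⟨_, h1, h2, h4⟩, h3⟩
    exact ⟨h1, h2, h3, h4⟩

theorem notMem_of_free {r : ℕ} (hr : 1 ≤ r) {n : ℕ} {B : Finset ℕ} {b : ℕ}
    (hb : b ∈ free r n B) : b ∉ B := by
  intro h
  simp only [free, Finset.mem_filter] at hb
  have := hb.2.2 b h
  rw [disj_iff hr] at this
  omega

theorem free_empty {r : ℕ} (hr : 1 ≤ r) (n : ℕ) :
    free r n ∅ = (range (n + 1 - r)).image (· + 1) := by
  ext c
  simp only [free, block, Finset.mem_filter, Finset.mem_Icc, Finset.notMem_empty, false_imp_iff,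
    implies_true, and_true, Finset.mem_image, Finset.mem_range]
  constructor
  · rintro ⟨⟨h1, h2⟩, h3⟩
    have h4 : c + r - 1 ∈ Finset.Icc 1 n := h3 (by rw [Finset.mem_Ico]; omega)
    rw [Finset.mem_Icc] at h4
    exact ⟨c - 1, by omega, by omega⟩
  · rintro ⟨a, ha, rfl⟩
    refine ⟨by omega, ?_⟩
    intro x hx
    rw [Finset.mem_Ico] at hx
    rw [Finset.mem_Icc]
    omega

theorem T_iter {r : ℕ} (hr : 1 ≤ r) (n k : ℕ) : ∀ B : Finset ℕ, (free r n B).card ≤ k →
    (T r n)^[k] (fun B => (B.card : ℝ)) B = B.card + e1 r (free r n B) ∧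
    (T r n)^[k] (fun B => (B.card : ℝ) ^ 2) B
      = (B.card : ℝ) ^ 2 + 2 * B.card * e1 r (free r n B) + e2 r (free r n B) := by
  induction k with
  | zero =>
    intro B hB
    have : free r n B = ∅ := Finset.card_eq_zero.1 (by omega)
    simp [this, e1_empty, e2_empty]
  | succ k ih =>
    intro B hB
    rw [Function.iterate_succ_apply', Function.iterate_succ_apply']
    by_cases h : (free r n B).Nonempty
    · have hc : ((free r n B).card : ℝ) ≠ 0 := by exact_mod_cast h.card_pos.ne'
      have key : ∀ b ∈ free r n B, (T r n)^[k] (fun B => (B.card : ℝ)) (insert b B)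
            = (B.card + 1) + e1 r (cut r (free r n B) b) ∧
          (T r n)^[k] (fun B => (B.card : ℝ) ^ 2) (insert b B)
            = ((B.card : ℝ) + 1) ^ 2 + 2 * (B.card + 1) * e1 r (cut r (free r n B) b)
              + e2 r (cut r (free r n B) b) := by
        intro b hb
        have h1 := cut_card_lt (r := r) hb
        have h2 := ih (insert b B) (by rw [free_insert hr]; omega)
        rw [free_insert hr, Finset.card_insert_of_notMem (notMem_of_free hr hb)] at h2
        push_cast at h2
        exact h2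
      constructor
      · rw [T, if_pos h, div_eq_iff hc]
        rw [Finset.sum_congr rfl (fun b hb => (key b hb).1)]
        have := e1_eq r (free r n B)
        have e : ∑ b ∈ free r n B, ((B.card : ℝ) + 1 + e1 r (cut r (free r n B) b))
            = (free r n B).card * (B.card : ℝ)
              + ∑ b ∈ free r n B, (1 + e1 r (cut r (free r n B) b)) := by
          have e' : ((free r n B).card : ℝ) * (B.card : ℝ) = ∑ _b ∈ free r n B, (B.card : ℝ) := by
            simp
          rw [e', ← Finset.sum_add_distrib]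
          apply Finset.sum_congr rfl
          intro b _
          ring
        rw [e, ← this]; ring
      · rw [T, if_pos h, div_eq_iff hc]
        rw [Finset.sum_congr rfl (fun b hb => (key b hb).2)]
        have h1 := e1_eq r (free r n B)
        have h2 := e2_eq r (free r n B)
        have e : ∑ b ∈ free r n B, (((B.card : ℝ) + 1) ^ 2
              + 2 * (B.card + 1) * e1 r (cut r (free r n B) b) + e2 r (cut r (free r n B) b))
            = (free r n B).card * (B.card : ℝ) ^ 2
              + 2 * B.card * ∑ b ∈ free r n B, (1 + e1 r (cut r (free r n B) b))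
              + ∑ b ∈ free r n B,
                (1 + 2 * e1 r (cut r (free r n B) b) + e2 r (cut r (free r n B) b)) := by
          have e' : ((free r n B).card : ℝ) * (B.card : ℝ) ^ 2
              = ∑ _b ∈ free r n B, (B.card : ℝ) ^ 2 := by
            simp
          rw [e', Finset.mul_sum, ← Finset.sum_add_distrib, ← Finset.sum_add_distrib]
          apply Finset.sum_congr rfl
          intro b _
          ring
        rw [e, ← h1, ← h2]; ring
    · have h0 : free r n B = ∅ := Finset.not_nonempty_iff_eq_empty.1 h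
      have := ih B (by rw [h0]; simp)
      rw [T, if_neg h, T, if_neg h]
      exact this

theorem e_nonneg (r : ℕ) : ∀ N : ℕ, ∀ A : Finset ℕ, A.card = N → 0 ≤ e1 r A ∧ 0 ≤ e2 r A := by
  intro N
  induction N using Nat.strong_induction_on with
  | _ N ih =>
    intro A hN
    rcases A.eq_empty_or_nonempty with h | h
    · subst h; simp [e1_empty, e2_empty]
    have hc : (0 : ℝ) < A.card := by exact_mod_cast h.card_pos
    have hb : ∀ b ∈ A, 0 ≤ e1 r (cut r A b) ∧ 0 ≤ e2 r (cut r A b) := fun b hb =>
      ih _ (by rw [← hN]; exact cut_card_lt hb) _ rfl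
    constructor
    · have := e1_eq r A
      have h2 : 0 ≤ ∑ b ∈ A, (1 + e1 r (cut r A b)) :=
        Finset.sum_nonneg fun b hb' => by have := (hb b hb').1; linarith
      rw [← this] at h2
      exact nonneg_of_mul_nonneg_right h2 hc
    · have := e2_eq r A
      have h2 : 0 ≤ ∑ b ∈ A, (1 + 2 * e1 r (cut r A b) + e2 r (cut r A b)) :=
        Finset.sum_nonneg fun b hb' => by have := hb b hb'; linarith [this.1, this.2]
      rw [← this] at h2
      exact nonneg_of_mul_nonneg_right h2 hc

theorem lint (p : PMF ℕ) (g : ℕ → ℝ≥0∞) :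
    ∫⁻ k, g k ∂p.toMeasure = ∑' k, p k * g k := by
  rw [lintegral_countable']
  apply tsum_congr
  intro k
  rw [PMF.toMeasure_apply_singleton _ _ (measurableSet_singleton k), mul_comm]

theorem var_eq (p : PMF ℕ) {a b : ℝ} (ha : 0 ≤ a) (hb : 0 ≤ b)
    (h1 : ∑' k : ℕ, p k * ENNReal.ofReal (k : ℝ) = ENNReal.ofReal a)
    (h2 : ∑' k : ℕ, p k * ENNReal.ofReal ((k : ℝ) ^ 2) = ENNReal.ofReal b) :
    Var[fun k : ℕ => (k : ℝ); p.toMeasure] = b - a ^ 2 := by
  have m1 : ∫ k : ℕ, (k : ℝ) ∂p.toMeasure = a := by
    rw [integral_eq_lintegral_of_nonneg_ae (Filter.Eventually.of_forall fun k => by positivity)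
      (measurable_of_countable _).aestronglyMeasurable, lint, h1, ENNReal.toReal_ofReal ha]
  have m2 : ∫ k : ℕ, (k : ℝ) ^ 2 ∂p.toMeasure = b := by
    rw [integral_eq_lintegral_of_nonneg_ae (Filter.Eventually.of_forall fun k => by positivity)
      (measurable_of_countable _).aestronglyMeasurable, lint, h2, ENNReal.toReal_ofReal hb]
  have hint : Integrable (fun k : ℕ => (k : ℝ) ^ 2) p.toMeasure := by
    refine ⟨(measurable_of_countable _).aestronglyMeasurable, ?_⟩
    rw [hasFiniteIntegral_iff_ofReal (Filter.Eventually.of_forall fun k => by positivity), lint, h2]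
    exact ENNReal.ofReal_lt_top
  have hmem : MemLp (fun k : ℕ => (k : ℝ)) 2 p.toMeasure := by
    rw [memLp_two_iff_integrable_sq (measurable_of_countable _).aestronglyMeasurable]
    exact hint
  rw [variance_eq_sub hmem]
  have : (∫ k : ℕ, ((fun k : ℕ => (k : ℝ)) ^ 2) k ∂p.toMeasure) = b := by
    rw [← m2]; rfl
  rw [this, m1]

theorem card_free_config {r : ℕ} (hr : 1 ≤ r) (n k : ℕ) :
    ∀ B ∈ (config r n k).support, (free r n B).card ≤ n - k := by
  induction k with
  | zero =>
    intro B hB
    simp only [config, PMF.support_pure, Set.mem_singleton_iff] at hB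
    subst hB
    rw [free_empty hr]
    refine Finset.card_image_le.trans ?_
    rw [Finset.card_range]; omega
  | succ k ih =>
    intro B hB
    simp only [config] at hB
    rw [PMF.mem_support_bind_iff] at hB
    obtain ⟨B0, hB0, hB⟩ := hB
    have h0 := ih B0 hB0
    unfold step at hB
    split_ifs at hB with h
    · rw [PMF.mem_support_map_iff] at hB
      obtain ⟨b, hb, rfl⟩ := hB
      rw [PMF.mem_support_uniformOfFinset_iff] at hb
      rw [free_insert hr]
      have := cut_card_lt (r := r) hb
      omega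
    · rw [PMF.support_pure, Set.mem_singleton_iff] at hB
      subst hB
      have h1 : free r n B = ∅ := Finset.not_nonempty_iff_eq_empty.1 h
      rw [h1]; simp

/-- The configuration after `n` placements is jammed. -/
theorem jammed_free {r : ℕ} (hr : 1 ≤ r) (n : ℕ) (B : Finset ℕ) (hB : B ∈ (jammed r n).support) :
    free r n B = ∅ := by
  have := card_free_config hr n n B hB
  exact Finset.card_eq_zero.1 (by omega)

theorem variance_countLaw {r : ℕ} (hr : 1 ≤ r) (n : ℕ) :
    Var[fun k : ℕ => (k : ℝ); (countLaw r n).toMeasure] = ss r n - mm r n ^ 2 := by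
  have hfree : (free r n ∅).card ≤ n := by
    rw [free_empty hr]
    refine Finset.card_image_le.trans ?_
    rw [Finset.card_range]; omega
  have hT := T_iter hr n n ∅ hfree
  have he := e_image r 1 _ (range (n + 1 - r)) rfl
  rw [free_empty hr, he.1, he.2] at hT
  simp only [Finset.card_empty, Nat.cast_zero, zero_add, mul_zero, zero_mul, add_zero] at hT
  have hz : ((0 : ℝ)) ^ 2 = 0 := by norm_num
  rw [hz, zero_add] at hT
  have hnn := e_nonneg r _ (range (n + 1 - r)) rfl
  apply var_eq
  · exact hnn.1
  · exact hnn.2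
  · unfold countLaw jammed
    rw [tsum_map, tsum_config n (φ := fun B => (B.card : ℝ)) (fun B => by positivity), hT.1]
    rfl
  · unfold countLaw jammed
    rw [tsum_map, tsum_config n (φ := fun B => (B.card : ℝ) ^ 2) (fun B => by positivity), hT.2]
    rfl

end Pool.Agent.X154.RSA
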